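import Mathlib

/-! Rosenthal inequality with integer exponent for finite independent non-negative variables
(project F of MP_4ef84e_co, note 2869, lemma (R)). -/

set_option autoImplicit false

namespace Pool.Agent.H73.RR

open Finset

variable {I : Type*} {Ω : I → Type*} [Fintype I] [DecidableEq I] [∀ i, Fintype (Ω i)]

/-- expectation with respect to the product of the weights `p i` -/
noncomputable def Ex (p : ∀ i, Ω i → ℝ) (F : (∀ i, Ω i) → ℝ) : ℝ :=
  ∑ ω : (∀ i, Ω i), (∏ i, p i (ω i)) * F ω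

theorem Ex_add (p : ∀ i, Ω i → ℝ) (F G : (∀ i, Ω i) → ℝ) :
    Ex p (fun ω => F ω + G ω) = Ex p F + Ex p G := by
  unfold Ex
  rw [← Finset.sum_add_distrib]
  exact Finset.sum_congr rfl fun ω _ => by ring

theorem Ex_sum {K : Type*} (s : Finset K) (p : ∀ i, Ω i → ℝ) (F : K → (∀ i, Ω i) → ℝ) :
    Ex p (fun ω => ∑ k ∈ s, F k ω) = ∑ k ∈ s, Ex p (F k) := by
  unfold Ex
  rw [Finset.sum_comm]
  exact Finset.sum_congr rfl fun ω _ => by rw [Finset.mul_sum]

theorem Ex_smul (p : ∀ i, Ω i → ℝ) (c : ℝ) (F : (∀ i, Ω i) → ℝ) :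
    Ex p (fun ω => c * F ω) = c * Ex p F := by
  unfold Ex
  rw [Finset.mul_sum]
  exact Finset.sum_congr rfl fun ω _ => by ring

theorem Ex_mono (p : ∀ i, Ω i → ℝ) (hp : ∀ i v, 0 ≤ p i v) (F G : (∀ i, Ω i) → ℝ)
    (h : ∀ ω, F ω ≤ G ω) : Ex p F ≤ Ex p G := by
  unfold Ex
  exact Finset.sum_le_sum fun ω _ =>
    mul_le_mul_of_nonneg_left (h ω) (Finset.prod_nonneg fun i _ => hp i _)

theorem Ex_one (p : ∀ i, Ω i → ℝ) (hs : ∀ i, ∑ v, p i v = 1) : Ex p (fun _ => 1) = 1 := by
  unfold Ex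
  simp only [mul_one]
  have := Finset.prod_univ_sum (fun i : I => (Finset.univ : Finset (Ω i))) (fun i v => p i v)
  rw [Fintype.piFinset_univ] at this
  rw [← this]
  simp [hs]

/-- resampling of one coordinate -/
theorem Ex_resample (p : ∀ i, Ω i → ℝ) (hs : ∀ i, ∑ v, p i v = 1) (i : I) (F : (∀ i, Ω i) → ℝ) :
    Ex p (fun ω => ∑ v, p i v * F (Function.update ω i v)) = Ex p F := by
  classical
  unfold Ex
  have h1 : ∀ ω : (∀ i, Ω i), (∏ j, p j (ω j)) * ∑ v, p i v * F (Function.update ω i v)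
      = ∑ v, (∏ j, p j (ω j)) * (p i v * F (Function.update ω i v)) := fun ω => by
    rw [Finset.mul_sum]
  have h2 : ∀ ω : (∀ i, Ω i), (∏ j, p j (ω j)) * F ω
      = ∑ v, (∏ j, p j (ω j)) * (p i v * F ω) := fun ω => by
    rw [← Finset.mul_sum, ← Finset.sum_mul, hs i, one_mul]
  rw [Finset.sum_congr rfl fun ω _ => h1 ω, Finset.sum_congr rfl fun ω _ => h2 ω]
  rw [← Finset.sum_product', ← Finset.sum_product']
  let e : (∀ i, Ω i) × Ω i → (∀ i, Ω i) × Ω i := fun q => (Function.update q.1 i q.2, q.1 i)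
  have he : Function.Involutive e := by
    intro q
    simp [e]
  refine Finset.sum_bij' (fun q _ => e q) (fun q _ => e q) (by simp) (by simp)
    (fun q _ => he q) (fun q _ => he q) ?_
  rintro ⟨ω, v⟩ -
  show (∏ j, p j (ω j)) * (p i v * F (Function.update ω i v))
    = (∏ j, p j (Function.update ω i v j)) * (p i (ω i) * F (Function.update ω i v))
  have h3 : (∏ j, p j (ω j)) = p i (ω i) * ∏ j ∈ Finset.univ.erase i, p j (ω j) := by
    exact (Finset.mul_prod_erase Finset.univ (fun j => p j (ω j)) (Finset.mem_univ i)).symm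
  have h4 : (∏ j, p j (Function.update ω i v j))
      = p i v * ∏ j ∈ Finset.univ.erase i, p j (ω j) := by
    rw [← Finset.mul_prod_erase _ _ (Finset.mem_univ i), Function.update_self]
    congr 1
    refine Finset.prod_congr rfl fun j hj => ?_
    rw [Function.update_of_ne (Finset.ne_of_mem_erase hj)]
  rw [h3, h4]
  ring

/-- independence -/
theorem Ex_indep (p : ∀ i, Ω i → ℝ) (hs : ∀ i, ∑ v, p i v = 1) (i : I) (X : Ω i → ℝ)
    (G : (∀ i, Ω i) → ℝ) (hG : ∀ ω v, G (Function.update ω i v) = G ω) :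
    Ex p (fun ω => X (ω i) * G ω) = (∑ v, p i v * X v) * Ex p G := by
  rw [← Ex_resample p hs i]
  simp only [Function.update_self, hG]
  rw [← Ex_smul]
  congr 1
  funext ω
  rw [Finset.sum_mul]
  exact Finset.sum_congr rfl fun v _ => by ring

theorem Ex_coord (p : ∀ i, Ω i → ℝ) (hs : ∀ i, ∑ v, p i v = 1) (i : I) (X : Ω i → ℝ) :
    Ex p (fun ω => X (ω i)) = ∑ v, p i v * X v := by
  have := Ex_indep p hs i X (fun _ => 1) (fun _ _ => rfl)
  simp only [mul_one] at this
  rw [this, Ex_one p hs, mul_one]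

/-- constant of the Rosenthal inequality -/
def CR : ℕ → ℝ
  | 0 => 1
  | (r + 1) => 2 ^ (r + 1) * (1 + 2 * CR r)

theorem CR_ge_one : ∀ r, 1 ≤ CR r
  | 0 => le_refl _
  | (r + 1) => by
      have h := CR_ge_one r
      have h2 : (1 : ℝ) ≤ 2 ^ (r + 1) := one_le_pow₀ (by norm_num)
      show 1 ≤ 2 ^ (r + 1) * (1 + 2 * CR r)
      nlinarith

/-- Rosenthal: `E (∑ X_i)^r ≤ C_r (∑ E X_i^r + (∑ E X_i)^r)`. -/
theorem rosenthal (p : ∀ i, Ω i → ℝ) (hp : ∀ i v, 0 ≤ p i v) (hs : ∀ i, ∑ v, p i v = 1)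
    (X : ∀ i, Ω i → ℝ) (hX : ∀ i v, 0 ≤ X i v) (r : ℕ) :
    Ex p (fun ω => (∑ i, X i (ω i)) ^ (r + 1))
      ≤ CR r * ((∑ i, ∑ v, p i v * X i v ^ (r + 1)) + (∑ i, ∑ v, p i v * X i v) ^ (r + 1)) := by
  have hμ0 : 0 ≤ ∑ i, ∑ v, p i v * X i v :=
    Finset.sum_nonneg fun i _ => Finset.sum_nonneg fun v _ => mul_nonneg (hp i v) (hX i v)
  have hA0 : ∀ r : ℕ, 0 ≤ ∑ i, ∑ v, p i v * X i v ^ r := fun r =>
    Finset.sum_nonneg fun i _ => Finset.sum_nonneg fun v _ =>
      mul_nonneg (hp i v) (pow_nonneg (hX i v) _)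
  induction r with
  | zero =>
    simp only [zero_add, pow_one, CR, one_mul]
    rw [Ex_sum]
    simp only [Ex_coord p hs]
    linarith
  | succ r ih =>
    set μ := ∑ i, ∑ v, p i v * X i v with hμ
    set A := ∑ i, ∑ v, p i v * X i v ^ (r + 1 + 1) with hA
    set A' := ∑ i, ∑ v, p i v * X i v ^ (r + 1) with hA'
    set S : (∀ i, Ω i) → ℝ := fun ω => ∑ i, X i (ω i) with hS
    let S' : I → (∀ i, Ω i) → ℝ := fun i ω => ∑ j ∈ Finset.univ.erase i, X j (ω j)
    have hS0 : ∀ ω, 0 ≤ S ω := fun ω => Finset.sum_nonneg fun i _ => hX i _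
    have hS'0 : ∀ i ω, 0 ≤ S' i ω := fun i ω => Finset.sum_nonneg fun i _ => hX i _
    have hSS' : ∀ i ω, S ω = X i (ω i) + S' i ω := fun i ω =>
      (Finset.add_sum_erase Finset.univ (fun j => X j (ω j)) (Finset.mem_univ i)).symm
    have hS'le : ∀ i ω, S' i ω ≤ S ω := fun i ω => by
      rw [hSS' i ω]; linarith [hX i (ω i)]
    have hinv : ∀ i ω v, S' i (Function.update ω i v) = S' i ω := fun i ω v => by
      refine Finset.sum_congr rfl fun j hj => ?_
      rw [Function.update_of_ne (Finset.ne_of_mem_erase hj)]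
    -- first step
    have h1 : Ex p (fun ω => S ω ^ (r + 1 + 1))
        ≤ ∑ i, (2 ^ r * ((∑ v, p i v * X i v ^ (r + 1 + 1))
          + (∑ v, p i v * X i v) * Ex p (fun ω => S ω ^ (r + 1)))) := by
      have e1 : (fun ω => S ω ^ (r + 1 + 1)) = fun ω => ∑ i, X i (ω i) * S ω ^ (r + 1) := by
        funext ω
        rw [← Finset.sum_mul, pow_succ']
      rw [e1, Ex_sum]
      refine Finset.sum_le_sum fun i _ => ?_
      calc Ex p (fun ω => X i (ω i) * S ω ^ (r + 1))
          ≤ Ex p (fun ω => 2 ^ r * (X i (ω i) ^ (r + 1 + 1) + X i (ω i) * S' i ω ^ (r + 1))) := by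
            refine Ex_mono p hp _ _ fun ω => ?_
            rw [hSS' i ω]
            have h := add_pow_le (hX i (ω i)) (hS'0 i ω) (r + 1)
            have h' := mul_le_mul_of_nonneg_left h (hX i (ω i))
            rw [Nat.add_sub_cancel] at h'
            calc X i (ω i) * (X i (ω i) + S' i ω) ^ (r + 1) ≤ _ := h'
              _ = _ := by ring
        _ = 2 ^ r * ((∑ v, p i v * X i v ^ (r + 1 + 1))
            + (∑ v, p i v * X i v) * Ex p (fun ω => S' i ω ^ (r + 1))) := by
            rw [Ex_smul, Ex_add, Ex_coord p hs i (fun v => X i v ^ (r + 1 + 1)),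
              Ex_indep p hs i (X i) (fun ω => S' i ω ^ (r + 1))
                (fun ω v => by simp only [hinv])]
        _ ≤ _ := by
            refine mul_le_mul_of_nonneg_left ?_ (by positivity)
            refine add_le_add le_rfl ?_
            refine mul_le_mul_of_nonneg_left ?_
              (Finset.sum_nonneg fun v _ => mul_nonneg (hp i v) (hX i v))
            exact Ex_mono p hp _ _ fun ω => pow_le_pow_left₀ (hS'0 i ω) (hS'le i ω) _
    have h2 : (∑ i, (2 ^ r * ((∑ v, p i v * X i v ^ (r + 1 + 1))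
          + (∑ v, p i v * X i v) * Ex p (fun ω => S ω ^ (r + 1)))))
        = 2 ^ r * (A + μ * Ex p (fun ω => S ω ^ (r + 1))) := by
      rw [← Finset.mul_sum, Finset.sum_add_distrib, ← Finset.sum_mul]
    have h3 : μ * A' ≤ A + μ ^ (r + 1) * μ := by
      rw [hA', hA]
      nth_rewrite 3 [hμ]
      rw [Finset.mul_sum, Finset.mul_sum, ← Finset.sum_add_distrib]
      refine Finset.sum_le_sum fun i _ => ?_
      rw [Finset.mul_sum, Finset.mul_sum, ← Finset.sum_add_distrib]
      refine Finset.sum_le_sum fun v _ => ?_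
      have hx := hX i v
      have : μ * X i v ^ (r + 1) ≤ X i v ^ (r + 1 + 1) + μ ^ (r + 1) * X i v := by
        rcases le_total μ (X i v) with h | h
        · have : μ * X i v ^ (r + 1) ≤ X i v * X i v ^ (r + 1) :=
            mul_le_mul_of_nonneg_right h (pow_nonneg hx _)
          have h5 : 0 ≤ μ ^ (r + 1) * X i v := mul_nonneg (pow_nonneg hμ0 _) hx
          calc _ ≤ X i v * X i v ^ (r + 1) := this
            _ = X i v ^ (r + 1 + 1) := by ring
            _ ≤ _ := by linarith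
        · have : X i v ^ r ≤ μ ^ r := pow_le_pow_left₀ hx h r
          have h5 : 0 ≤ X i v ^ (r + 1 + 1) := pow_nonneg hx _
          have h6 : μ * X i v ^ (r + 1) ≤ μ ^ (r + 1) * X i v := by
            calc μ * X i v ^ (r + 1) = μ * X i v * X i v ^ r := by ring
              _ ≤ μ * X i v * μ ^ r := mul_le_mul_of_nonneg_left this (mul_nonneg hμ0 hx)
              _ = _ := by ring
          linarith
      calc μ * (p i v * X i v ^ (r + 1)) = p i v * (μ * X i v ^ (r + 1)) := by ring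
        _ ≤ p i v * (X i v ^ (r + 1 + 1) + μ ^ (r + 1) * X i v) :=
            mul_le_mul_of_nonneg_left this (hp i v)
        _ = _ := by ring
    have hC := CR_ge_one r
    have hA0' : 0 ≤ A := hA0 _
    have hm : 0 ≤ μ ^ (r + 1 + 1) := pow_nonneg hμ0 _
    have h4 : μ * Ex p (fun ω => S ω ^ (r + 1)) ≤ CR r * (A + 2 * μ ^ (r + 1 + 1)) := by
      calc μ * Ex p (fun ω => S ω ^ (r + 1)) ≤ μ * (CR r * (A' + μ ^ (r + 1))) :=
            mul_le_mul_of_nonneg_left ih hμ0
        _ = CR r * (μ * A' + μ ^ (r + 1 + 1)) := by ring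
        _ ≤ CR r * (A + 2 * μ ^ (r + 1 + 1)) := by
            refine mul_le_mul_of_nonneg_left ?_ (by linarith)
            have : μ ^ (r + 1) * μ = μ ^ (r + 1 + 1) := by ring
            linarith
    calc Ex p (fun ω => S ω ^ (r + 1 + 1)) ≤ 2 ^ r * (A + μ * Ex p (fun ω => S ω ^ (r + 1))) :=
          h1.trans h2.le
      _ ≤ 2 ^ r * (A + CR r * (A + 2 * μ ^ (r + 1 + 1))) := by
          refine mul_le_mul_of_nonneg_left ?_ (by positivity)
          linarith
      _ ≤ 2 ^ r * (2 * (1 + 2 * CR r) * (A + μ ^ (r + 1 + 1))) := by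
          refine mul_le_mul_of_nonneg_left ?_ (by positivity)
          nlinarith [mul_nonneg (by linarith : (0:ℝ) ≤ CR r) hA0',
            mul_nonneg (by linarith : (0:ℝ) ≤ CR r) hm]
      _ = CR (r + 1) * (A + μ ^ (r + 1 + 1)) := by
          show _ = 2 ^ (r + 1) * (1 + 2 * CR r) * (A + μ ^ (r + 1 + 1))
          ring

end Pool.Agent.H73.RR
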