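import Pool.Agent.H73.RR.Rosen

/-! Rounding lemma (R) of note 2869 (MP_4ef84e_co). -/

set_option autoImplicit false

namespace Pool.Agent.H73.RR

open Finset

variable {I K : Type*} {Ω : I → Type*} [Fintype I] [Fintype K] [∀ i, Fintype (Ω i)]

/-- Rounding lemma. Uniform independent choices `ω i ∈ Ω i`; `T i k` non-negative with
`∑ i, E T i k ≤ a k`; three non-negative functions `Z i r` with `E Z i r ≤ z i r`; on the event
`Z i r ≤ 8 z i r` for all `r` one has `∑ k, T i k ^ (l+1) ≤ β i`. Then some outcome has all the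
events and `∑ k, (∑ i, T i k) ^ (l+1) ≤ C (∑ k, a k ^ (l+1) + ∑ i, β i)`. -/
theorem rounding [∀ i, Nonempty (Ω i)] (l : ℕ)
    (T : ∀ i, K → Ω i → ℝ) (hT : ∀ i k v, 0 ≤ T i k v)
    (a : K → ℝ) (ha : ∀ k, ∑ i, (∑ v, T i k v) / (Fintype.card (Ω i) : ℝ) ≤ a k)
    (Z : ∀ i, Fin 3 → Ω i → ℝ) (hZ : ∀ i r v, 0 ≤ Z i r v)
    (z : I → Fin 3 → ℝ) (hz : ∀ i r, (∑ v, Z i r v) / (Fintype.card (Ω i) : ℝ) ≤ z i r)
    (β : I → ℝ) (hβ : ∀ i v, (∀ r, Z i r v ≤ 8 * z i r) → ∑ k, T i k v ^ (l + 1) ≤ β i) :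
    ∃ ω : ∀ i, Ω i, (∀ i r, Z i r (ω i) ≤ 8 * z i r) ∧
      ∑ k, (∑ i, T i k (ω i)) ^ (l + 1)
        ≤ CR l * 2 ^ (l + 1) * (∑ k, a k ^ (l + 1) + ∑ i, β i) := by
  classical
  -- the good events
  let G : ∀ i, Finset (Ω i) := fun i => Finset.univ.filter fun v => ∀ r, Z i r v ≤ 8 * z i r
  have hcpos : ∀ i, (0 : ℝ) < Fintype.card (Ω i) := fun i => by
    exact_mod_cast Fintype.card_pos
  have hz0 : ∀ i r, 0 ≤ z i r := fun i r =>
    le_trans (div_nonneg (Finset.sum_nonneg fun v _ => hZ i r v) (hcpos i).le) (hz i r)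
  have hbad : ∀ i r, ((Finset.univ.filter fun v : Ω i => 8 * z i r < Z i r v).card : ℝ)
      ≤ (Fintype.card (Ω i) : ℝ) / 8 := by
    intro i r
    have h1 : ∑ v, Z i r v ≤ z i r * Fintype.card (Ω i) := by
      have := hz i r
      rwa [div_le_iff₀ (hcpos i)] at this
    rcases (hz0 i r).eq_or_lt with h0 | h0
    · have hall : ∀ v, Z i r v = 0 := by
        rw [← h0, zero_mul] at h1
        intro v
        have h2 := Finset.single_le_sum (fun v _ => hZ i r v) (Finset.mem_univ v)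
        have := hZ i r v
        linarith
      have : (Finset.univ.filter fun v : Ω i => 8 * z i r < Z i r v) = ∅ := by
        rw [Finset.filter_eq_empty_iff]
        intro v _
        rw [hall v, ← h0]
        simp
      rw [this]
      simp only [Finset.card_empty, Nat.cast_zero]
      exact div_nonneg (hcpos i).le (by norm_num)
    · have h2 : ∑ v ∈ Finset.univ.filter (fun v : Ω i => 8 * z i r < Z i r v), (8 * z i r)
          ≤ ∑ v, Z i r v := by
        calc _ ≤ ∑ v ∈ Finset.univ.filter (fun v : Ω i => 8 * z i r < Z i r v), Z i r v :=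
              Finset.sum_le_sum fun v hv => (Finset.mem_filter.1 hv).2.le
          _ ≤ _ := Finset.sum_le_sum_of_subset_of_nonneg (Finset.filter_subset _ _)
              fun v _ _ => hZ i r v
      rw [Finset.sum_const, nsmul_eq_mul] at h2
      have h3 : ((Finset.univ.filter fun v : Ω i => 8 * z i r < Z i r v).card : ℝ) * (8 * z i r)
          ≤ z i r * Fintype.card (Ω i) := h2.trans h1
      have h4 : z i r * (8 * ((Finset.univ.filter fun v : Ω i => 8 * z i r < Z i r v).card : ℝ))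
          ≤ z i r * Fintype.card (Ω i) := by
        calc _ = _ := by ring
          _ ≤ _ := h3
      have h5 := le_of_mul_le_mul_left h4 h0
      linarith
  have hGcard : ∀ i, (Fintype.card (Ω i) : ℝ) ≤ 8 / 5 * (G i).card := by
    intro i
    have hcover : (Finset.univ : Finset (Ω i)) ⊆ G i ∪ (Finset.univ : Finset (Fin 3)).biUnion
        fun r => Finset.univ.filter fun v : Ω i => 8 * z i r < Z i r v := by
      intro v _
      by_cases hv : ∀ r, Z i r v ≤ 8 * z i r
      · exact Finset.mem_union_left _ (Finset.mem_filter.2 ⟨Finset.mem_univ _, hv⟩)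
      · push Not at hv
        obtain ⟨r, hr⟩ := hv
        exact Finset.mem_union_right _ (Finset.mem_biUnion.2 ⟨r, Finset.mem_univ _,
          Finset.mem_filter.2 ⟨Finset.mem_univ _, hr⟩⟩)
    have h1 := (Finset.card_le_card hcover).trans (Finset.card_union_le _ _)
    have h2 : ((Finset.univ : Finset (Fin 3)).biUnion
        fun r => Finset.univ.filter fun v : Ω i => 8 * z i r < Z i r v).card
        ≤ ∑ r : Fin 3, (Finset.univ.filter fun v : Ω i => 8 * z i r < Z i r v).card :=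
      Finset.card_biUnion_le
    have h3 : (Fintype.card (Ω i) : ℝ) ≤ (G i).card
        + ∑ r : Fin 3, ((Finset.univ.filter fun v : Ω i => 8 * z i r < Z i r v).card : ℝ) := by
      rw [Finset.card_univ] at h1
      exact_mod_cast h1.trans (Nat.add_le_add_left h2 _)
    have h4 : ∑ r : Fin 3, ((Finset.univ.filter fun v : Ω i => 8 * z i r < Z i r v).card : ℝ)
        ≤ ∑ _r : Fin 3, (Fintype.card (Ω i) : ℝ) / 8 :=
      Finset.sum_le_sum fun r _ => hbad i r
    simp only [Finset.sum_const, Finset.card_univ, Fintype.card_fin, nsmul_eq_mul] at h4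
    push_cast at h4
    linarith
  have hGpos : ∀ i, (0 : ℝ) < (G i).card := fun i => by
    have := hGcard i
    have := hcpos i
    linarith
  -- conditioned law
  let p : ∀ i, Ω i → ℝ := fun i v => if v ∈ G i then 1 / ((G i).card : ℝ) else 0
  have hp : ∀ i v, 0 ≤ p i v := by
    intro i v
    show 0 ≤ (if v ∈ G i then 1 / ((G i).card : ℝ) else 0)
    split_ifs
    · exact (one_div_pos.2 (hGpos i)).le
    · exact le_rfl
  have hsum : ∀ (i : I) (f : Ω i → ℝ), ∑ v, p i v * f v = (∑ v ∈ G i, f v) / (G i).card := by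
    intro i f
    have e1 : ∀ v, p i v * f v = if v ∈ G i then f v / ((G i).card : ℝ) else 0 := by
      intro v
      show (if v ∈ G i then 1 / ((G i).card : ℝ) else 0) * f v = _
      split_ifs <;> ring
    rw [Finset.sum_congr rfl fun v _ => e1 v, ← Finset.sum_filter, Finset.filter_mem_eq_inter,
      Finset.univ_inter, Finset.sum_div]
  have hs : ∀ i, ∑ v, p i v = 1 := by
    intro i
    have := hsum i (fun _ => 1)
    simp only [mul_one, Finset.sum_const, nsmul_eq_mul, mul_one] at this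
    rw [this, div_self (hGpos i).ne']
  have hEle : ∀ i k, ∑ v, p i v * T i k v ≤ 8 / 5 * ((∑ v, T i k v) / (Fintype.card (Ω i) : ℝ)) := by
    intro i k
    rw [hsum]
    have h0 : 0 ≤ ∑ v, T i k v := Finset.sum_nonneg fun v _ => hT i k v
    have h1 : ∑ v ∈ G i, T i k v ≤ ∑ v, T i k v :=
      Finset.sum_le_sum_of_subset_of_nonneg (Finset.subset_univ _) fun v _ _ => hT i k v
    rw [div_le_iff₀ (hGpos i)]
    have h2 : 1 ≤ 8 / 5 * (G i).card / (Fintype.card (Ω i) : ℝ) := by
      rw [le_div_iff₀ (hcpos i)]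
      linarith [hGcard i]
    calc ∑ v ∈ G i, T i k v ≤ ∑ v, T i k v := h1
      _ ≤ (∑ v, T i k v) * (8 / 5 * (G i).card / (Fintype.card (Ω i) : ℝ)) :=
          le_mul_of_one_le_right h0 h2
      _ = _ := by ring
  have ha0 : ∀ k, 0 ≤ a k := fun k =>
    le_trans (Finset.sum_nonneg fun i _ =>
      div_nonneg (Finset.sum_nonneg fun v _ => hT i k v) (hcpos i).le) (ha k)
  have hCR := CR_ge_one l
  have hmain : Ex p (fun ω => ∑ k, (∑ i, T i k (ω i)) ^ (l + 1))
      ≤ CR l * 2 ^ (l + 1) * (∑ k, a k ^ (l + 1) + ∑ i, β i) := by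
    rw [Ex_sum]
    have h1 : ∀ k, Ex p (fun ω => (∑ i, T i k (ω i)) ^ (l + 1))
        ≤ CR l * ((∑ i, ∑ v, p i v * T i k v ^ (l + 1)) + 2 ^ (l + 1) * a k ^ (l + 1)) := by
      intro k
      refine (rosenthal p hp hs (fun i v => T i k v) (fun i v => hT i k v) l).trans ?_
      refine mul_le_mul_of_nonneg_left ?_ (by linarith)
      refine add_le_add le_rfl ?_
      rw [← mul_pow]
      refine pow_le_pow_left₀ ?_ ?_ _
      · exact Finset.sum_nonneg fun i _ => Finset.sum_nonneg fun v _ =>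
          mul_nonneg (hp i v) (hT i k v)
      · calc ∑ i, ∑ v, p i v * T i k v
            ≤ ∑ i, 8 / 5 * ((∑ v, T i k v) / (Fintype.card (Ω i) : ℝ)) :=
              Finset.sum_le_sum fun i _ => hEle i k
          _ = 8 / 5 * ∑ i, (∑ v, T i k v) / (Fintype.card (Ω i) : ℝ) := by
              rw [Finset.mul_sum]
          _ ≤ 2 * a k := by
              have := ha k
              have := ha0 k
              linarith
    have h2 : ∑ k, ∑ i, ∑ v, p i v * T i k v ^ (l + 1) ≤ ∑ i, β i := by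
      rw [Finset.sum_comm]
      refine Finset.sum_le_sum fun i _ => ?_
      rw [Finset.sum_comm]
      simp only [← Finset.mul_sum]
      rw [hsum i (fun v => ∑ k, T i k v ^ (l + 1)), div_le_iff₀ (hGpos i)]
      calc ∑ v ∈ G i, ∑ k, T i k v ^ (l + 1) ≤ ∑ v ∈ G i, β i :=
            Finset.sum_le_sum fun v hv => hβ i v (Finset.mem_filter.1 hv).2
        _ = β i * (G i).card := by rw [Finset.sum_const, nsmul_eq_mul, mul_comm]
    have hβ0 : 0 ≤ ∑ k, ∑ i, ∑ v, p i v * T i k v ^ (l + 1) :=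
      Finset.sum_nonneg fun k _ => Finset.sum_nonneg fun i _ => Finset.sum_nonneg fun v _ =>
        mul_nonneg (hp i v) (pow_nonneg (hT i k v) _)
    calc ∑ k, Ex p (fun ω => (∑ i, T i k (ω i)) ^ (l + 1))
        ≤ ∑ k, CR l * ((∑ i, ∑ v, p i v * T i k v ^ (l + 1)) + 2 ^ (l + 1) * a k ^ (l + 1)) :=
          Finset.sum_le_sum fun k _ => h1 k
      _ = CR l * ((∑ k, ∑ i, ∑ v, p i v * T i k v ^ (l + 1))
            + 2 ^ (l + 1) * ∑ k, a k ^ (l + 1)) := by
          rw [← Finset.mul_sum, Finset.sum_add_distrib, Finset.mul_sum]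
      _ ≤ CR l * (2 ^ (l + 1) * (∑ k, a k ^ (l + 1) + ∑ i, β i)) := by
          refine mul_le_mul_of_nonneg_left ?_ (by linarith)
          have h3 : (1 : ℝ) ≤ 2 ^ (l + 1) := one_le_pow₀ (by norm_num)
          have h4 : 0 ≤ ∑ i, β i := hβ0.trans h2
          nlinarith [mul_nonneg (by linarith : (0:ℝ) ≤ 2 ^ (l + 1) - 1) h4]
      _ = _ := by ring
  -- existence
  by_contra hne
  push Not at hne
  have hgood : ∀ ω : (∀ i, Ω i), (∀ i, ω i ∈ G i) →
      CR l * 2 ^ (l + 1) * (∑ k, a k ^ (l + 1) + ∑ i, β i)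
        < ∑ k, (∑ i, T i k (ω i)) ^ (l + 1) := fun ω hω =>
    hne ω fun i r => (Finset.mem_filter.1 (hω i)).2 r
  have hw : ∀ ω : (∀ i, Ω i), (∀ i, ω i ∈ G i) → 0 < ∏ i, p i (ω i) := by
    intro ω hω
    refine Finset.prod_pos fun i _ => ?_
    show 0 < (if ω i ∈ G i then 1 / ((G i).card : ℝ) else 0)
    rw [if_pos (hω i)]
    exact one_div_pos.2 (hGpos i)
  have hw0 : ∀ ω : (∀ i, Ω i), (¬ ∀ i, ω i ∈ G i) → ∏ i, p i (ω i) = 0 := by
    intro ω hω
    push Not at hω
    obtain ⟨i, hi⟩ := hω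
    refine Finset.prod_eq_zero (Finset.mem_univ i) ?_
    show (if ω i ∈ G i then 1 / ((G i).card : ℝ) else 0) = 0
    rw [if_neg hi]
  set B := CR l * 2 ^ (l + 1) * (∑ k, a k ^ (l + 1) + ∑ i, β i) with hB
  have hlt : Ex p (fun _ => B) < Ex p (fun ω => ∑ k, (∑ i, T i k (ω i)) ^ (l + 1)) := by
    unfold Ex
    refine Finset.sum_lt_sum (fun ω _ => ?_) ?_
    · by_cases hω : ∀ i, ω i ∈ G i
      · exact (mul_lt_mul_of_pos_left (hgood ω hω) (hw ω hω)).le
      · rw [hw0 ω hω, zero_mul, zero_mul]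
    · have hne' : ∀ i, ∃ v, v ∈ G i := fun i => by
        have : 0 < (G i).card := by exact_mod_cast hGpos i
        exact Finset.card_pos.1 this
      choose v hv using hne'
      exact ⟨v, Finset.mem_univ _, mul_lt_mul_of_pos_left (hgood v hv) (hw v hv)⟩
  have hconst : Ex p (fun _ => B) = B := by
    have := Ex_smul p B (fun _ => (1 : ℝ))
    simp only [mul_one] at this
    rw [this, Ex_one p hs, mul_one]
  rw [hconst] at hlt
  linarith

end Pool.Agent.H73.RR
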